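import Pool.Agent.FS.LinearSpaces.Main

namespace Pool.Agent.Variants.MP_dbcba7_co.LinearSpaces

/-- Let `L` be a family of subsets of a nonempty finite set `X`, each with at least two points,
two distinct members sharing at most one point, such that the sum of
`(|T| - 1) / (2^(|T| - 1) - 1)` over the members `T` through a point has the same value `s` at
every point of `X`. Then every finite union-closed family containing `L` has a point of `X` in at
least half of its members if and only if `1 ≤ s`. -/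
theorem result {α : Type*} [DecidableEq α] [Infinite α] (X : Finset α) (L : Finset (Finset α))
    (s : ℝ) (hX : X.Nonempty) (hL : ∀ T ∈ L, T ⊆ X ∧ 2 ≤ T.card)
    (hlin : ∀ T ∈ L, ∀ T' ∈ L, T ≠ T' → (T ∩ T').card ≤ 1)
    (hs : ∀ x ∈ X,
      ∑ T ∈ L.filter (fun T => x ∈ T), ((T.card : ℝ) - 1) / (2 ^ (T.card - 1) - 1) = s) :
    (∀ F : Finset (Finset α), (∀ A ∈ F, ∀ B ∈ F, A ∪ B ∈ F) → L ⊆ F →
      ∃ x ∈ X, F.card ≤ 2 * (F.filter (fun S => x ∈ S)).card) ↔ 1 ≤ s := by
  refine ⟨fun h => ?_, fun h F hF hLF =>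
    Pool.Agent.FS.LinearSpaces.fc hX hL hlin hs h F hF hLF⟩
  by_contra hc
  obtain ⟨F, hF, hLF, hlt⟩ := Pool.Agent.FS.LinearSpaces.not_fc hX hL hlin hs (not_le.1 hc)
  obtain ⟨x, hx, hle⟩ := h F hF hLF
  exact absurd (hlt x hx) (not_lt.2 hle)

end Pool.Agent.Variants.MP_dbcba7_co.LinearSpaces
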