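import Pool.Agent.FS.SpectralFC.Main

namespace Pool.Agent.Variants.MP_dbcba7_co.SpectralFC

/-- Let `L` be a family of subsets of a nonempty finite set `X`, each with at least two points,
two distinct members sharing at most one point. Suppose that all members have at most three points,
or that the sum of `(|T| - 1) / (2^(|T| - 1) - 1)` over the members `T` through a point is the same
at every point of `X`. Then every finite union-closed family containing `L` has a point of `X` in
at least half of its members if and only if there are nonnegative weights on `X`, not all zero, such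
that the weight of each point `x` is at most the sum, over the members `T` through `x`, of the
total weight of the other points of `T` divided by `2^(|T| - 1) - 1`. -/
theorem result {α : Type*} [DecidableEq α] [Infinite α] (X : Finset α) (L : Finset (Finset α))
    (hX : X.Nonempty) (hL : ∀ T ∈ L, T ⊆ X ∧ 2 ≤ T.card)
    (hlin : ∀ T ∈ L, ∀ T' ∈ L, T ≠ T' → (T ∩ T').card ≤ 1)
    (hreg : (∀ T ∈ L, T.card ≤ 3) ∨ ∃ s : ℝ, ∀ x ∈ X,
      ∑ T ∈ L.filter (fun T => x ∈ T), ((T.card : ℝ) - 1) / (2 ^ (T.card - 1) - 1) = s) :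
    (∀ F : Finset (Finset α), (∀ A ∈ F, ∀ B ∈ F, A ∪ B ∈ F) → L ⊆ F →
      ∃ x ∈ X, F.card ≤ 2 * (F.filter (fun S => x ∈ S)).card) ↔
    ∃ c : α → ℝ, (∀ x ∈ X, 0 ≤ c x) ∧ (∃ x ∈ X, 0 < c x) ∧ ∀ x ∈ X,
      c x ≤ ∑ T ∈ L.filter (fun T => x ∈ T), (∑ y ∈ T.erase x, c y) / (2 ^ (T.card - 1) - 1) :=
  ⟨Pool.Agent.FS.SpectralFC.spectral_of_fc hX hL hlin, fun ⟨_, c0, c1, c2⟩ =>
    Pool.Agent.FS.SpectralFC.fc_of_spectral hX hL hlin hreg c0 c1 c2⟩

end Pool.Agent.Variants.MP_dbcba7_co.SpectralFC
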